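import Pool.Agent.Work.MP_db9399_sv.Interface

/-! # MP_db9399_sv: FLIP (helper15) -/

set_option autoImplicit false
set_option linter.unusedSectionVars false

namespace Pool.Agent.Work.MP_db9399_sv.helper15

open Finset Classical
open Pool.Agent.Work.MP_db9399_all (nb)
open Pool.Agent.Work.MP_db9399_sl (InS Same Gout Gss Gin Gex Out)
open Pool.Agent.Work.MP_db9399_sv

universe u

variable {V : Type u} {k : ℕ}

lemma flt_0 (t : V → V → Fin k) (v w x : V) (α β : Fin k) (a b : V) :
    flt t ((0 : Fin 4), v, w, x, α, β) a b = t a b := by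
  simp [flt, kd]

lemma flt_1 (t : V → V → Fin k) (v w x : V) (α β : Fin k) (a b : V) :
    flt t ((1 : Fin 4), v, w, x, α, β) a b =
      if (a = v ∧ b = w) ∨ (a = w ∧ b = v) then β else t a b := by
  simp [flt, kd, qv, qw, be]

lemma flt_2 (t : V → V → Fin k) (v w x : V) (α β : Fin k) (a b : V) :
    flt t ((2 : Fin 4), v, w, x, α, β) a b =
      if (a = v ∧ b = w) ∨ (a = w ∧ b = v) then β else t a b := by
  simp [flt, kd, qv, qw, be]

lemma flt_3 (t : V → V → Fin k) (v w x : V) (α β : Fin k) (a b : V) :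
    flt t ((3 : Fin 4), v, w, x, α, β) a b =
      if (a = v ∧ b = w) ∨ (a = w ∧ b = v) then β
      else if (a = x ∧ b = w) ∨ (a = w ∧ b = x) then α else t a b := by
  simp [flt, kd, qv, qw, qx, al, be]

lemma flE_0 (E : V → Finset (Fin k)) (v w x : V) (α β : Fin k) (a : V) :
    flE E ((0 : Fin 4), v, w, x, α, β) a =
      if a = v then insert β ((E a).erase α) else E a := by
  simp [flE, kd, qv, al, be]

lemma flE_1 (E : V → Finset (Fin k)) (v w x : V) (α β : Fin k) (a : V) :
    flE E ((1 : Fin 4), v, w, x, α, β) a =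
      if a = v then insert β ((E a).erase α) else E a := by
  simp [flE, kd, qv, al, be]

lemma flE_2 (E : V → Finset (Fin k)) (v w x : V) (α β : Fin k) (a : V) :
    flE E ((2 : Fin 4), v, w, x, α, β) a =
      if a = v then insert β ((E a).erase α)
      else if a = x then insert β ((E a).erase α) else E a := by
  simp [flE, kd, qv, qx, al, be]

lemma flE_3 (E : V → Finset (Fin k)) (v w x : V) (α β : Fin k) (a : V) :
    flE E ((3 : Fin 4), v, w, x, α, β) a =
      if a = v then insert β ((E a).erase α)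
      else if a = x then insert α ((E a).erase β) else E a := by
  simp [flE, kd, qv, qx, al, be]

lemma card_swap (A : Finset (Fin k)) (α β : Fin k) (hα : α ∈ A) (hβ : β ∉ A) :
    (insert β (A.erase α)).card = A.card := by
  rw [card_insert_of_notMem (by simp [hβ]), card_erase_of_mem hα]
  have : 0 < A.card := card_pos.mpr ⟨α, hα⟩
  omega

variable [Fintype V]

/-- `Cor` for kind 0 -/
lemma cor0 (G EH : SimpleGraph V) (d : ℕ) (Ys : Finset (Finset V)) (UH X0 : Finset V)
    (c0 tu c : V → Fin k) (t : V → V → Fin k) (E F0 : V → Finset (Fin k)) (K0 : Finset (Fin k))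
    (hUX : ∀ v ∈ UH, InS Ys v → v ∈ X0)
    (hC : Cor G EH d Ys UH c0 tu c t E F0 K0) (v w x : V) (α β : Fin k) (hv : InS Ys v)
    (hv0 : v ∉ X0) (hα : α ∈ E v) (hβK : β ∈ K0) (hβ : β ∉ E v)
    (h0 : ∀ u, (Gex G Ys).Adj v u ∨ EH.Adj v u → t v u ≠ α) :
    Cor G EH d Ys UH c0 tu c (flt t ((0 : Fin 4), v, w, x, α, β))
      (flE E ((0 : Fin 4), v, w, x, α, β)) F0 K0 := by
  have hf : flt t ((0 : Fin 4), v, w, x, α, β) = t := by
    funext a b
    exact flt_0 t v w x α β a b
  rw [hf]
  refine ⟨hC.ts, hC.te, hC.tK, hC.tc, hC.ti, ?_, ?_, ?_, ?_, hC.cU, ?_, hC.F0c⟩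
  · intro a b ha hab
    rw [flE_0]
    have := hC.Et a b ha hab
    split_ifs with h
    · subst h
      have h1 := h0 b hab
      simp [h1, this]
    · exact this
  · intro a ha haU
    rw [flE_0]
    have := hC.EK a ha haU
    split_ifs with h
    · intro z hz
      rw [mem_insert, mem_erase] at hz
      rcases hz with rfl | hz
      · exact hβK
      · exact this hz.2
    · exact this
  · intro a haU ha
    have hav : a ≠ v := fun h => hv0 (h ▸ hUX a haU ha)
    rw [flE_0, if_neg hav]
    exact hC.EU a haU ha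
  · intro a ha
    rw [flE_0]
    have := hC.Ed a ha
    split_ifs with h
    · subst h
      rw [card_swap _ _ _ hα hβ]
      exact this
    · exact this
  · intro a haU ha
    have hav : a ≠ v := fun h => hv0 (h ▸ hUX a haU ha)
    rw [flE_0, if_neg hav]
    exact hC.F0d a haU ha

/-- `Cor` for kind 1 -/
lemma cor1 (G EH : SimpleGraph V) (d : ℕ) (Ys : Finset (Finset V)) (UH X0 : Finset V)
    (c0 tu c : V → Fin k) (t : V → V → Fin k) (E F0 : V → Finset (Fin k)) (K0 : Finset (Fin k))
    (hEG : EH ≤ G) (hUX : ∀ v ∈ UH, InS Ys v → v ∈ X0)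
    (hC : Cor G EH d Ys UH c0 tu c t E F0 K0) (v w x : V) (α β : Fin k) (hv : InS Ys v)
    (hv0 : v ∉ X0) (hα : α ∈ E v) (hβK : β ∈ K0) (hβ : β ∉ E v)
    (hw : ¬ InS Ys w) (hvw : G.Adj v w) (hvwE : ¬ EH.Adj v w) (ht : t v w = α)
    (hM1 : β ≠ c w) (hM2 : ∀ u, G.Adj w u → t w u ≠ β) :
    Cor G EH d Ys UH c0 tu c (flt t ((1 : Fin 4), v, w, x, α, β))
      (flE E ((1 : Fin 4), v, w, x, α, β)) F0 K0 := by
  have hne : v ≠ w := hvw.ne
  have hvU : v ∉ UH := fun h => hv0 (hUX v h hv)
  have hX : (Gex G Ys).Adj v w := ⟨hvw, fun ⟨Y, hY, _, h2⟩ => hw ⟨Y, hY, h2⟩⟩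
  refine ⟨?_, ?_, ?_, ?_, ?_, ?_, ?_, ?_, ?_, hC.cU, ?_, hC.F0c⟩
  · intro a b
    rw [flt_1, flt_1, hC.ts a b]
    split_ifs with h1 h2 h2
    · rfl
    · exact absurd (by tauto) h2
    · exact absurd (by tauto) h1
    · rfl
  · intro a b hab
    rw [flt_1, if_neg]
    · exact hC.te a b hab
    · rintro (⟨rfl, rfl⟩ | ⟨rfl, rfl⟩)
      · exact hvwE hab
      · exact hvwE hab.symm
  · intro a b hab habE
    rw [flt_1]
    split_ifs with h
    · exact hβK
    · exact hC.tK a b hab habE
  · intro a b hab haU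
    rw [flt_1]
    split_ifs with h
    · rcases h with ⟨rfl, rfl⟩ | ⟨rfl, rfl⟩
      · exact absurd (haU hv) hvU
      · exact hM1
    · exact hC.tc a b hab haU
  · intro a b hb b' hb' hbb
    have hbG : G.Adj a b := hb.elim (fun h => h.1) (fun h => hEG h)
    have hbG' : G.Adj a b' := hb'.elim (fun h => h.1) (fun h => hEG h)
    simp only [flt_1] at hbb
    have hinj := hC.ti a hb hb'
    by_cases hav : a = v
    · subst hav
      have e1 : ∀ z, ((Gex G Ys).Adj a z ∨ EH.Adj a z) → t a z ≠ β := by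
        intro z hz h
        exact hβ (h ▸ hC.Et a z hv hz)
      have := e1 b hb
      have := e1 b' hb'
      grind
    · by_cases haw : a = w
      · subst haw
        have := hM2 b hbG
        have := hM2 b' hbG'
        grind
      · grind
  · intro a b ha hab
    rw [flt_1, flE_1]
    have h1 := hC.Et a b ha hab
    by_cases hav : a = v
    · subst hav
      rw [if_pos rfl]
      by_cases hbw : b = w
      · subst hbw
        simp
      · have h2 : t a b ≠ α := by
          intro h
          apply hbw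
          exact hC.ti a hab (Or.inl hX) (by rw [h, ht])
        have h3 : ¬ ((a = a ∧ b = w) ∨ (a = w ∧ b = a)) := by
          rintro (⟨_, h⟩ | ⟨h, _⟩)
          · exact hbw h
          · exact hne h
        rw [if_neg h3]
        simp [h1, h2]
    · have haw : a ≠ w := by
        rintro rfl
        exact hw ha
      rw [if_neg hav, if_neg]
      · exact h1
      · rintro (⟨h, _⟩ | ⟨h, _⟩)
        · exact hav h
        · exact haw h
  · intro a ha haU
    rw [flE_1]
    have := hC.EK a ha haU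
    split_ifs with h
    · intro z hz
      rw [mem_insert, mem_erase] at hz
      rcases hz with rfl | hz
      · exact hβK
      · exact this hz.2
    · exact this
  · intro a haU ha
    have hav : a ≠ v := fun h => hv0 (h ▸ hUX a haU ha)
    rw [flE_1, if_neg hav]
    exact hC.EU a haU ha
  · intro a ha
    rw [flE_1]
    have := hC.Ed a ha
    split_ifs with h
    · subst h
      rw [card_swap _ _ _ hα hβ]
      exact this
    · exact this
  · intro a haU ha
    have hav : a ≠ v := fun h => hv0 (h ▸ hUX a haU ha)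
    rw [flE_1, if_neg hav]
    exact hC.F0d a haU ha

/-- `Cor` for kind 2 -/
lemma cor2 (G EH : SimpleGraph V) (d : ℕ) (Ys : Finset (Finset V)) (UH X0 : Finset V)
    (c0 tu c : V → Fin k) (t : V → V → Fin k) (E F0 : V → Finset (Fin k)) (K0 : Finset (Fin k))
    (hUX : ∀ v ∈ UH, InS Ys v → v ∈ X0)
    (hC : Cor G EH d Ys UH c0 tu c t E F0 K0) (v x : V) (α β : Fin k) (hv : InS Ys v)
    (hv0 : v ∉ X0) (hxF : x ∈ UH → β ∉ F0 x) (hα : α ∈ E v) (hβK : β ∈ K0) (hβ : β ∉ E v)
    (hx : InS Ys x) (hX : (Gex G Ys).Adj v x) (hvxE : ¬ EH.Adj v x) (ht : t v x = α)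
    (hβx : β ∉ E x) :
    Cor G EH d Ys UH c0 tu c (flt t ((2 : Fin 4), v, x, x, α, β))
      (flE E ((2 : Fin 4), v, x, x, α, β)) F0 K0 := by
  have hne : v ≠ x := hX.ne
  have hvU : v ∉ UH := fun h => hv0 (hUX v h hv)
  have hcx : x ∈ UH → β ≠ c0 x := by
    intro h hb
    exact hxF h (hb ▸ hC.F0c x h hx (hb ▸ hβK))
  have htx : t x v = α := by rw [hC.ts, ht]
  have hαx : α ∈ E x := htx ▸ hC.Et x v hx (Or.inl hX.symm)
  refine ⟨?_, ?_, ?_, ?_, ?_, ?_, ?_, ?_, ?_, hC.cU, ?_, hC.F0c⟩
  · intro a b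
    rw [flt_2, flt_2, hC.ts a b]
    split_ifs with h1 h2 h2
    · rfl
    · exact absurd (by tauto) h2
    · exact absurd (by tauto) h1
    · rfl
  · intro a b hab
    rw [flt_2, if_neg]
    · exact hC.te a b hab
    · rintro (⟨rfl, rfl⟩ | ⟨rfl, rfl⟩)
      · exact hvxE hab
      · exact hvxE hab.symm
  · intro a b hab habE
    rw [flt_2]
    split_ifs with h
    · exact hβK
    · exact hC.tK a b hab habE
  · intro a b hab haU
    rw [flt_2]
    split_ifs with h
    · rcases h with ⟨rfl, rfl⟩ | ⟨rfl, rfl⟩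
      · exact absurd (haU hv) hvU
      · rw [hC.cU _ (haU hx)]
        exact hcx (haU hx)
    · exact hC.tc a b hab haU
  · intro a b hb b' hb' hbb
    simp only [flt_2] at hbb
    have hinj := hC.ti a hb hb'
    by_cases hav : a = v
    · subst hav
      have e1 : ∀ z, ((Gex G Ys).Adj a z ∨ EH.Adj a z) → t a z ≠ β := by
        intro z hz h
        exact hβ (h ▸ hC.Et a z hv hz)
      have := e1 b hb
      have := e1 b' hb'
      grind
    · by_cases haw : a = x
      · subst haw
        have e1 : ∀ z, ((Gex G Ys).Adj a z ∨ EH.Adj a z) → t a z ≠ β := by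
          intro z hz h
          exact hβx (h ▸ hC.Et a z hx hz)
        have := e1 b hb
        have := e1 b' hb'
        grind
      · grind
  · intro a b ha hab
    rw [flt_2, flE_2]
    have h1 := hC.Et a b ha hab
    by_cases hav : a = v
    · subst hav
      rw [if_pos rfl]
      by_cases hbw : b = x
      · subst hbw
        simp
      · have h2 : t a b ≠ α := by
          intro h
          apply hbw
          exact hC.ti a hab (Or.inl hX) (by rw [h, ht])
        have h3 : ¬ ((a = a ∧ b = x) ∨ (a = x ∧ b = a)) := by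
          rintro (⟨_, h⟩ | ⟨h, _⟩)
          · exact hbw h
          · exact hne h
        rw [if_neg h3]
        simp [h1, h2]
    · rw [if_neg hav]
      by_cases hax : a = x
      · subst hax
        rw [if_pos rfl]
        by_cases hbw : b = v
        · subst hbw
          simp
        · have h2 : t a b ≠ α := by
            intro h
            apply hbw
            exact hC.ti a hab (Or.inl hX.symm) (by rw [h, htx])
          have h3 : ¬ ((a = v ∧ b = a) ∨ (a = a ∧ b = v)) := by
            rintro (⟨h, _⟩ | ⟨_, h⟩)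
            · exact hne h.symm
            · exact hbw h
          rw [if_neg h3]
          simp [h1, h2]
      · rw [if_neg hax, if_neg]
        · exact h1
        · rintro (⟨h, _⟩ | ⟨h, _⟩)
          · exact hav h
          · exact hax h
  · intro a ha haU
    rw [flE_2]
    have := hC.EK a ha haU
    have h5 : insert β ((E a).erase α) ⊆ K0 := by
      intro z hz
      rw [mem_insert, mem_erase] at hz
      rcases hz with rfl | hz
      · exact hβK
      · exact this hz.2
    split_ifs with h h'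
    · exact h5
    · exact h5
    · exact this
  · intro a haU ha
    have hav : a ≠ v := fun h => hv0 (h ▸ hUX a haU ha)
    have h1 := hC.EU a haU ha
    rw [flE_2, if_neg hav]
    split_ifs with hax
    · subst hax
      have h2 := hcx haU
      constructor
      · intro z hz
        rw [mem_insert, mem_erase] at hz
        rcases hz with rfl | hz
        · exact mem_insert_of_mem hβK
        · exact h1.1 hz.2
      · rw [mem_insert, mem_erase]
        rintro (h | h)
        · exact h2 h.symm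
        · exact h1.2 h.2
    · exact h1
  · intro a ha
    rw [flE_2]
    have := hC.Ed a ha
    split_ifs with h h'
    · subst h
      rw [card_swap _ _ _ hα hβ]
      exact this
    · subst h'
      rw [card_swap _ _ _ hαx hβx]
      exact this
    · exact this
  · intro a haU ha
    have hav : a ≠ v := fun h => hv0 (h ▸ hUX a haU ha)
    have h1 := hC.F0d a haU ha
    rw [flE_2, if_neg hav]
    split_ifs with hax
    · subst hax
      rw [disjoint_insert_right]
      exact ⟨hxF haU, Disjoint.mono_right (erase_subset _ _) h1⟩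
    · exact h1

/-- `Cor` for kind 3 -/
lemma cor3 (G EH : SimpleGraph V) (d : ℕ) (Ys : Finset (Finset V)) (UH X0 : Finset V)
    (c0 tu c : V → Fin k) (t : V → V → Fin k) (E F0 : V → Finset (Fin k)) (K0 : Finset (Fin k))
    (hUX : ∀ v ∈ UH, InS Ys v → v ∈ X0)
    (hC : Cor G EH d Ys UH c0 tu c t E F0 K0) (v w x : V) (α β : Fin k) (hv : InS Ys v)
    (hv0 : v ∉ X0) (hx0 : x ∉ X0) (hα : α ∈ E v) (hβK : β ∈ K0) (hβ : β ∉ E v)
    (hw : ¬ InS Ys w) (hvw : G.Adj v w) (hvwE : ¬ EH.Adj v w) (ht : t v w = α)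
    (hx : InS Ys x) (hxw : G.Adj x w) (hxwE : ¬ EH.Adj x w) (htx : t x w = β)
    (hαx : α ∉ E x) (hne : v ≠ x) :
    Cor G EH d Ys UH c0 tu c (flt t ((3 : Fin 4), v, w, x, α, β))
      (flE E ((3 : Fin 4), v, w, x, α, β)) F0 K0 := by
  have hnvw : v ≠ w := hvw.ne
  have hnxw : x ≠ w := hxw.ne
  have hvU : v ∉ UH := fun h => hv0 (hUX v h hv)
  have hxU : x ∉ UH := fun h => hx0 (hUX x h hx)
  have hX : (Gex G Ys).Adj v w := ⟨hvw, fun ⟨Y, hY, _, h2⟩ => hw ⟨Y, hY, h2⟩⟩
  have hXx : (Gex G Ys).Adj x w := ⟨hxw, fun ⟨Y, hY, _, h2⟩ => hw ⟨Y, hY, h2⟩⟩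
  have hβx : β ∈ E x := htx ▸ hC.Et x w hx (Or.inl hXx)
  have hαK : α ∈ K0 := hC.EK v hv hvU hα
  have htw : t w v = α := by rw [hC.ts, ht]
  have htwx : t w x = β := by rw [hC.ts, htx]
  refine ⟨?_, ?_, ?_, ?_, ?_, ?_, ?_, ?_, ?_, hC.cU, ?_, hC.F0c⟩
  · intro a b
    have := hC.ts a b
    simp only [flt_3]
    grind
  · intro a b hab
    rw [flt_3, if_neg, if_neg]
    · exact hC.te a b hab
    · rintro (⟨rfl, rfl⟩ | ⟨rfl, rfl⟩)
      · exact hxwE hab
      · exact hxwE hab.symm
    · rintro (⟨rfl, rfl⟩ | ⟨rfl, rfl⟩)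
      · exact hvwE hab
      · exact hvwE hab.symm
  · intro a b hab habE
    rw [flt_3]
    split_ifs with h h'
    · exact hβK
    · exact hαK
    · exact hC.tK a b hab habE
  · intro a b hab haU
    rw [flt_3]
    split_ifs with h h'
    · rcases h with ⟨rfl, rfl⟩ | ⟨rfl, rfl⟩
      · exact absurd (haU hv) hvU
      · rw [← htwx]
        exact hC.tc a x hXx.symm haU
    · rcases h' with ⟨rfl, rfl⟩ | ⟨rfl, rfl⟩
      · exact absurd (haU hx) hxU
      · rw [← htw]
        exact hC.tc a v hX.symm haU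
    · exact hC.tc a b hab haU
  · intro a b hb b' hb' hbb
    simp only [flt_3] at hbb
    have hinj := hC.ti a hb hb'
    by_cases hav : a = v
    · subst hav
      have e1 : ∀ z, ((Gex G Ys).Adj a z ∨ EH.Adj a z) → t a z ≠ β := by
        intro z hz h
        exact hβ (h ▸ hC.Et a z hv hz)
      have := e1 b hb
      have := e1 b' hb'
      grind
    · by_cases hax : a = x
      · subst hax
        have e1 : ∀ z, ((Gex G Ys).Adj a z ∨ EH.Adj a z) → t a z ≠ α := by
          intro z hz h
          exact hαx (h ▸ hC.Et a z hx hz)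
        have := e1 b hb
        have := e1 b' hb'
        grind
      · by_cases haw : a = w
        · subst haw
          have h1 : ∀ z, ((Gex G Ys).Adj a z ∨ EH.Adj a z) → t a z = α → z = v := by
            intro z hz h
            exact hC.ti a hz (Or.inl hX.symm) (by rw [h, htw])
          have h2 : ∀ z, ((Gex G Ys).Adj a z ∨ EH.Adj a z) → t a z = β → z = x := by
            intro z hz h
            exact hC.ti a hz (Or.inl hXx.symm) (by rw [h, htwx])
          have := h1 b hb
          have := h1 b' hb'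
          have := h2 b hb
          have := h2 b' hb'
          grind
        · grind
  · intro a b ha hab
    have haw : a ≠ w := by
      rintro rfl
      exact hw ha
    rw [flt_3, flE_3]
    have h1 := hC.Et a b ha hab
    by_cases hav : a = v
    · subst hav
      rw [if_pos rfl]
      by_cases hbw : b = w
      · subst hbw
        simp
      · have h2 : t a b ≠ α := by
          intro h
          apply hbw
          exact hC.ti a hab (Or.inl hX) (by rw [h, ht])
        have h3 : ¬ ((a = a ∧ b = w) ∨ (a = w ∧ b = a)) := by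
          rintro (⟨_, h⟩ | ⟨h, _⟩)
          · exact hbw h
          · exact haw h
        have h4 : ¬ ((a = x ∧ b = w) ∨ (a = w ∧ b = x)) := by
          rintro (⟨_, h⟩ | ⟨h, _⟩)
          · exact hbw h
          · exact haw h
        rw [if_neg h3, if_neg h4]
        simp [h1, h2]
    · rw [if_neg hav]
      by_cases hax : a = x
      · subst hax
        rw [if_pos rfl]
        by_cases hbw : b = w
        · subst hbw
          have h3 : ¬ ((a = v ∧ b = b) ∨ (a = b ∧ b = v)) := by
            rintro (⟨h, _⟩ | ⟨h, _⟩)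
            · exact hav h
            · exact haw h
          rw [if_neg h3, if_pos (Or.inl ⟨rfl, rfl⟩)]
          simp
        · have h2 : t a b ≠ β := by
            intro h
            apply hbw
            exact hC.ti a hab (Or.inl hXx) (by rw [h, htx])
          have h3 : ¬ ((a = v ∧ b = w) ∨ (a = w ∧ b = v)) := by
            rintro (⟨_, h⟩ | ⟨h, _⟩)
            · exact hbw h
            · exact haw h
          have h4 : ¬ ((a = a ∧ b = w) ∨ (a = w ∧ b = a)) := by
            rintro (⟨_, h⟩ | ⟨h, _⟩)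
            · exact hbw h
            · exact haw h
          rw [if_neg h3, if_neg h4]
          simp [h1, h2]
      · have h3 : ¬ ((a = v ∧ b = w) ∨ (a = w ∧ b = v)) := by
          rintro (⟨h, _⟩ | ⟨h, _⟩)
          · exact hav h
          · exact haw h
        have h4 : ¬ ((a = x ∧ b = w) ∨ (a = w ∧ b = x)) := by
          rintro (⟨h, _⟩ | ⟨h, _⟩)
          · exact hax h
          · exact haw h
        rw [if_neg hax, if_neg h3, if_neg h4]
        exact h1
  · intro a ha haU
    rw [flE_3]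
    have := hC.EK a ha haU
    split_ifs with h h'
    · intro z hz
      rw [mem_insert, mem_erase] at hz
      rcases hz with rfl | hz
      · exact hβK
      · exact this hz.2
    · intro z hz
      rw [mem_insert, mem_erase] at hz
      rcases hz with rfl | hz
      · exact hαK
      · exact this hz.2
    · exact this
  · intro a haU ha
    have hav : a ≠ v := fun h => hv0 (h ▸ hUX a haU ha)
    have hax : a ≠ x := fun h => hx0 (h ▸ hUX a haU ha)
    rw [flE_3, if_neg hav, if_neg hax]
    exact hC.EU a haU ha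
  · intro a ha
    rw [flE_3]
    have := hC.Ed a ha
    split_ifs with h h'
    · subst h
      rw [card_swap _ _ _ hα hβ]
      exact this
    · subst h'
      rw [card_swap _ _ _ hβx hαx]
      exact this
    · exact this
  · intro a haU ha
    have hav : a ≠ v := fun h => hv0 (h ▸ hUX a haU ha)
    have hax : a ≠ x := fun h => hx0 (h ▸ hUX a haU ha)
    rw [flE_3, if_neg hav, if_neg hax]
    exact hC.F0d a haU ha

lemma inS_mono (Ys Sh : Finset (Finset V)) (h : Sh ⊆ Ys) (v : V) (hv : InS Sh v) : InS Ys v := by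
  obtain ⟨Y, hY, hvY⟩ := hv
  exact ⟨Y, h hY, hvY⟩

omit [Fintype V] in
lemma not_same (Ys : Finset (Finset V)) (v x : V) (hv : InS Ys v) (h : ¬ Same Ys v x) : v ≠ x := by
  rintro rfl
  obtain ⟨Y, hY, hvY⟩ := hv
  exact h ⟨Y, hY, hvY, hvY⟩

lemma flt_spot (G EH : SimpleGraph V) (Ys Sh : Finset (Finset V)) (UH X0 : Finset V)
    (K0 : Finset (Fin k)) (μ : V → Fin k) (t : V → V → Fin k) (E F0 : V → Finset (Fin k))
    (q : Cn V k) (hV : Vld G EH Ys Sh UH X0 K0 μ t E F0 q) (a u : V) (ha : InS Ys a) (hav : a ≠ qv q)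
    (hax : a ≠ qx q) : flt t q a u = t a u := by
  obtain ⟨kk, v, w, x, α, β⟩ := q
  obtain ⟨-, -, -, -, -, -, h⟩ := hV
  simp only [qv, qx, qw, kd, al, be] at h hav hax
  rcases h with ⟨h0, -⟩ | ⟨h0, -, hw, -⟩ | ⟨h0, hw, -⟩ | ⟨h0, hw, -⟩
  · subst h0
    rw [flt_0]
  · subst h0
    have haw : a ≠ w := by
      rintro rfl
      exact hw ha
    rw [flt_1, if_neg (by tauto)]
  · subst h0
    have haw : a ≠ w := by rw [hw]; exact hax
    rw [flt_2, if_neg (by tauto)]
  · subst h0
    have haw : a ≠ w := by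
      rintro rfl
      exact hw ha
    rw [flt_3, if_neg (by tauto), if_neg (by tauto)]

omit [Fintype V] in
lemma flE_other (E : V → Finset (Fin k)) (q : Cn V k) (a : V) (hav : a ≠ qv q) (hax : a ≠ qx q) :
    flE E q a = E a := by
  unfold flE
  rw [if_neg hav, if_neg (by tauto), if_neg (by tauto)]

lemma vld_keep (G EH : SimpleGraph V) (Ys Sh : Finset (Finset V)) (UH X0 : Finset V)
    (K0 : Finset (Fin k)) (μ : V → Fin k) (t : V → V → Fin k) (E F0 : V → Finset (Fin k))
    (hSh : Sh ⊆ Ys) (q q' : Cn V k) (hV : Vld G EH Ys Sh UH X0 K0 μ t E F0 q)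
    (hV' : Vld G EH Ys Sh UH X0 K0 μ t E F0 q') (hc : Cmp q q') :
    Vld G EH Ys Sh UH X0 K0 μ (flt t q) (flE E q) F0 q' := by
  obtain ⟨c1, c2, c3, c4, -⟩ := hc
  obtain ⟨a1, a2, a3, a4, a5, a6, h⟩ := hV'
  have hE1 : flE E q (qv q') = E (qv q') := flE_other E q _ (Ne.symm c1) (Ne.symm c3)
  have hE2 : flE E q (qx q') = E (qx q') := flE_other E q _ (Ne.symm c2) (Ne.symm c4)
  have hi : InS Ys (qv q') := inS_mono Ys Sh hSh _ a1
  have ht1 : ∀ u, flt t q (qv q') u = t (qv q') u := fun u =>
    flt_spot G EH Ys Sh UH X0 K0 μ t E F0 q hV _ u hi (Ne.symm c1) (Ne.symm c3)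
  refine ⟨a1, a2, a3, by rw [hE1]; exact a4, a5, by rw [hE1]; exact a6, ?_⟩
  rcases h with ⟨h0, h1, h2, h3⟩ | ⟨h0, h1, h2, h3, h4, h5, h6⟩ |
    ⟨h0, h1, h2, h3, h4, h5, h6⟩ | ⟨h0, h1, h2, h3, h4, h5, h6, h7, h8, h9, h10⟩
  · left
    exact ⟨h0, h1, h2, fun u hu => by rw [ht1]; exact h3 u hu⟩
  · right; left
    exact ⟨h0, h1, h2, h3, h4, by rw [ht1]; exact h5, h6⟩
  · right; right; left
    exact ⟨h0, h1, h2, h3, h4, by rw [ht1]; exact h5, by rw [hE2]; exact h6⟩
  · right; right; right
    have hi2 : InS Ys (qx q') := inS_mono Ys Sh hSh _ h5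
    have ht2 : ∀ u, flt t q (qx q') u = t (qx q') u := fun u =>
      flt_spot G EH Ys Sh UH X0 K0 μ t E F0 q hV _ u hi2 (Ne.symm c2) (Ne.symm c4)
    exact ⟨h0, h1, h2, h3, by rw [ht1]; exact h4, h5, h6, h7, by rw [ht2]; exact h8,
      by rw [hE2]; exact h9, h10⟩

lemma mis_keep (G EH : SimpleGraph V) (Ys Sh : Finset (Finset V)) (UH X0 : Finset V)
    (c : V → Fin k) (K0 : Finset (Fin k)) (μ : V → Fin k) (t : V → V → Fin k)
    (E F0 : V → Finset (Fin k)) (hSh : Sh ⊆ Ys) (hts : ∀ v w, t v w = t w v)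
    (q : Cn V k) (hV : Vld G EH Ys Sh UH X0 K0 μ t E F0 q) (y : V) (hy : ¬ InS Ys y)
    (hyw : kd q = 1 → y ≠ qw q) (hM : Mis G c K0 μ t y) : Mis G c K0 μ (flt t q) y := by
  refine ⟨hM.1, hM.2.1, fun b hb => ?_⟩
  have hMb := hM.2.2 b hb
  obtain ⟨kk, v, w, x, α, β⟩ := q
  obtain ⟨hv, -, -, -, -, -, h⟩ := hV
  simp only [qv, qx, qw, kd, al, be] at h hyw hv
  have hyv : y ≠ v := by
    rintro rfl
    exact hy (inS_mono Ys Sh hSh _ hv)
  rcases h with ⟨h0, -⟩ | ⟨h0, -⟩ | ⟨h0, hw, hx, -⟩ |
    ⟨h0, h2, h3, -, h4, h5, h6, h7, h8, h9, h10⟩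
  · subst h0
    rw [flt_0]
    exact hMb
  · subst h0
    have := hyw rfl
    rw [flt_1, if_neg (by tauto)]
    exact hMb
  · subst h0
    have hyx : y ≠ w := by
      rintro rfl
      exact hy (hw ▸ hx)
    rw [flt_2, if_neg (by tauto)]
    exact hMb
  · subst h0
    have hyx : y ≠ x := by
      rintro rfl
      exact hy (inS_mono Ys Sh hSh _ h5)
    rw [flt_3]
    split_ifs with k1 k2
    · rcases k1 with ⟨k1, -⟩ | ⟨k1, k2⟩
      · exact absurd k1 hyv
      · subst k1
        rw [← h8, hts]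
        exact hM.2.2 x h6.symm
    · rcases k2 with ⟨k1, -⟩ | ⟨k1, k2⟩
      · exact absurd k1 hyx
      · subst k1
        rw [← h4, hts]
        exact hM.2.2 v h3.symm
    · exact hMb

/-- the other vertex of the coin is not in the spot of the first -/
lemma qx_notMem (G EH : SimpleGraph V) (Ys Sh : Finset (Finset V)) (UH X0 : Finset V)
    (K0 : Finset (Fin k)) (μ : V → Fin k) (t : V → V → Fin k)
    (E F0 : V → Finset (Fin k)) (q : Cn V k) (hV : Vld G EH Ys Sh UH X0 K0 μ t E F0 q) (Y : Finset V)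
    (hY : Y ∈ Ys) (hvY : qv q ∈ Y) : qx q = qv q ∨ qx q ∉ Y := by
  obtain ⟨-, -, -, -, -, -, h⟩ := hV
  rcases h with ⟨h0, h1, h2, -⟩ | ⟨h0, h1, -⟩ | ⟨h0, h1, h2, h3, -⟩ |
    ⟨h0, h1, h2, h3, h4, h5, h6, h7, h8, h9, h10⟩
  · exact Or.inl h2
  · exact Or.inl h1
  · exact Or.inr (fun h => h3.2 ⟨Y, hY, hvY, h⟩)
  · exact Or.inr (fun h => h10 ⟨Y, hY, hvY, h⟩)

/-- `flE` only concerns the two colours -/
lemma flE_col (E : V → Finset (Fin k)) (q : Cn V k) (a : V) (b : Fin k) (h1 : b ≠ al q)
    (h2 : b ≠ be q) : b ∈ flE E q a ↔ b ∈ E a := by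
  unfold flE
  split_ifs <;> simp [h1, h2]

theorem stmt_FLIP : Stmt_FLIP.{u} := by
  intro V _ k G EH d Ys Sh UH X0 c0 tu c t E F0 K0 μ q hEG hSh hdis hUX hC hV hM
  have hVi : InS Ys (qv q) := inS_mono Ys Sh hSh _ hV.1
  have hvU : qv q ∉ UH := fun h => hV.2.1 (hUX _ h hVi)
  refine ⟨?_, ?_, ?_, ?_, ?_, ?_⟩
  · obtain ⟨kk, v, w, x, α, β⟩ := q
    obtain ⟨hv, hv0, hx0, hα, hβK, hβ, h⟩ := hV
    simp only [qv, qx, qw, kd, al, be] at h hM hv hv0 hx0 hα hβK hβ hVi hvU
    rcases h with ⟨h0, h1, h2, h3⟩ | ⟨h0, h1, h2, h3, h4, h5, h6⟩ |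
      ⟨h0, h1, h2, h3, h4, h5, h6⟩ | ⟨h0, h2, h3, h4, h5, h6, h7, h8, h9, h10, h11⟩
    · subst h0
      exact cor0 G EH d Ys UH X0 c0 tu c t E F0 K0 hUX hC v w x α β hVi hv0 hα hβK hβ h3
    · subst h0
      have hM' := hM rfl
      exact cor1 G EH d Ys UH X0 c0 tu c t E F0 K0 hEG hUX hC v w x α β hVi hv0 hα hβK hβ h2 h3 h4
        h5 (h6 ▸ hM'.2.1) (fun u hu => by rw [h6]; exact hM'.2.2 u hu)
    · subst h0
      subst h1
      refine cor2 G EH d Ys UH X0 c0 tu c t E F0 K0 hUX hC v w α β hVi hv0 ?_ hα hβK hβ h2 h3 h4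
        h5 h6
      intro hU
      rcases hx0 with h | h
      · exact absurd (hUX w hU h2) h
      · exact h.2.2
    · subst h0
      have hx0 : x ∉ X0 := by
        rcases hx0 with h | h
        · exact h
        · exact absurd h.1 (by decide)
      exact cor3 G EH d Ys UH X0 c0 tu c t E F0 K0 hUX hC v w x α β hVi hv0 hx0 hα hβK hβ h2 h3 h4
        h5 (inS_mono Ys Sh hSh _ h6) h7 h8 h9 h10 (not_same Ys v x hVi h11)
  · intro y hy hyw hMy
    exact mis_keep G EH Ys Sh UH X0 c K0 μ t E F0 hSh hC.ts q hV y hy hyw hMy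
  · intro q' hV' hc
    exact vld_keep G EH Ys Sh UH X0 K0 μ t E F0 hSh q q' hV hV' hc
  · intro v h1 h2
    exact flE_other E q v h1 h2
  · intro Y hY hvY
    have hα : al q ∈ E (qv q) := hV.2.2.2.1
    have hβ : be q ∉ E (qv q) := hV.2.2.2.2.2.1
    have hne : al q ≠ be q := fun h => hβ (h ▸ hα)
    have hx := qx_notMem G EH Ys Sh UH X0 K0 μ t E F0 q hV Y hY hvY
    have e1 : Y.filter (fun v => al q ∉ FE UH F0 (flE E q) v)
        = insert (qv q) (Y.filter (fun v => al q ∉ FE UH F0 E v)) := by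
      ext u
      rw [mem_filter, mem_insert, mem_filter]
      by_cases hu : u = qv q
      · subst hu
        have : al q ∉ FE UH F0 (flE E q) (qv q) := by
          rw [FE, if_neg hvU, flE, if_pos rfl, mem_insert, mem_erase]
          rintro (h | h)
          · exact hne h
          · exact h.1 rfl
        simp [hvY, this]
      · have hux : u ∈ Y → u ≠ qx q := by
          intro huY h
          rcases hx with hx | hx
          · exact hu (h.trans hx)
          · exact hx (h ▸ huY)
        constructor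
        · rintro ⟨h1, h2⟩
          refine Or.inr ⟨h1, ?_⟩
          unfold FE at h2 ⊢
          rw [flE_other E q u hu (hux h1)] at h2
          exact h2
        · rintro (h | ⟨h1, h2⟩)
          · exact absurd h hu
          · refine ⟨h1, ?_⟩
            unfold FE at h2 ⊢
            rw [flE_other E q u hu (hux h1)]
            exact h2
    have e2 : ms Y UH F0 (flE E q) (al q) = ms Y UH F0 E (al q) + 1 := by
      unfold ms
      rw [e1, card_insert_of_notMem]
      rw [mem_filter]
      rintro ⟨-, h⟩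
      rw [FE, if_neg hvU] at h
      exact h hα
    rw [e2]
    exact Nat.odd_add_one
  · intro Y hY b hb
    unfold ms
    congr 1
    apply filter_congr
    intro u hu
    rw [not_iff_not]
    have key : b ∈ flE E q u ↔ b ∈ E u := by
      rcases hb with ⟨h1, h2⟩ | ⟨h1, h2⟩
      · exact flE_col E q u b h1 h2
      · rw [flE_other E q u (fun h => h1 (h ▸ hu)) (fun h => h2 (h ▸ hu))]
    unfold FE
    split_ifs
    · rw [mem_union, mem_union, key]
    · exact key

end Pool.Agent.Work.MP_db9399_sv.helper15
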