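import Pool.Agent.Work.MP_db9399_sv.Interface
import Pool.Agent.Work.MP_db9399_all_helper6.LLLI

/-! # MP_db9399_sv: SELQ (helper15) -/

set_option autoImplicit false
set_option linter.unusedSectionVars false

namespace Pool.Agent.Work.MP_db9399_sv.helper15

open Finset Classical
open Pool.Agent.Work.MP_db9399_all (pr DepOnI PackI Stmt_LLLI stmt_LLLI)
open Pool.Agent.Work.MP_db9399_sv

universe u

/-! ## elementary symmetric sums -/

lemma pow_add_ge (s q : ℝ) (hs : 0 ≤ s) (hq : 0 ≤ q) (n : ℕ) :
    s ^ (n + 1) + (n + 1) * q * s ^ n ≤ (s + q) ^ (n + 1) := by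
  induction n with
  | zero => simp
  | succ n ih =>
    have h1 : (s + q) ^ (n + 1 + 1) = (s + q) * (s + q) ^ (n + 1) := by ring
    rw [h1]
    have h2 : (s + q) * (s ^ (n + 1) + (n + 1) * q * s ^ n) ≤ (s + q) * (s + q) ^ (n + 1) :=
      mul_le_mul_of_nonneg_left ih (by linarith)
    refine le_trans ?_ h2
    push_cast
    have h3 : 0 ≤ (n + 1) * q * q * s ^ n := by positivity
    have h4 : (s + q) * (s ^ (n + 1) + (n + 1) * q * s ^ n)
        = s ^ (n + 1 + 1) + (n + 1 + 1) * q * s ^ (n + 1) + (n + 1) * q * q * s ^ n := by ring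
    rw [h4]
    linarith

lemma esum_le {J : Type u} (q : J → ℝ) (hq : ∀ j, 0 ≤ q j) (s : Finset J) :
    ∀ n : ℕ, ∑ S ∈ powersetCard n s, ∏ j ∈ S, q j ≤ (∑ j ∈ s, q j) ^ n / (n.factorial : ℝ) := by
  induction s using Finset.induction_on with
  | empty =>
    intro n
    rcases n with _ | n
    · simp
    · rw [powersetCard_eq_empty.mpr (by simp)]
      simp
  | insert a s ha ih =>
    intro n
    rcases n with _ | n
    · simp
    · rw [powersetCard_succ_insert ha, sum_union, sum_image]
      · have h1 : ∑ S ∈ powersetCard n s, ∏ j ∈ insert a S, q j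
            = q a * ∑ S ∈ powersetCard n s, ∏ j ∈ S, q j := by
          rw [mul_sum]
          refine sum_congr rfl (fun S hS => ?_)
          rw [prod_insert]
          intro h
          exact ha ((mem_powersetCard.mp hS).1 h)
        rw [h1, sum_insert ha]
        set σ := ∑ j ∈ s, q j with hσ
        have hσ0 : 0 ≤ σ := sum_nonneg (fun j _ => hq j)
        have h2 := ih (n + 1)
        have h3 : q a * ∑ S ∈ powersetCard n s, ∏ j ∈ S, q j ≤ q a * (σ ^ n / (n.factorial : ℝ)) :=
          mul_le_mul_of_nonneg_left (ih n) (hq a)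
        refine (add_le_add h2 h3).trans ?_
        have h4 := pow_add_ge σ (q a) hσ0 (hq a) n
        have hf : (0 : ℝ) < (n.factorial : ℝ) := by exact_mod_cast n.factorial_pos
        have hf1 : ((n + 1).factorial : ℝ) = (n + 1) * (n.factorial : ℝ) := by
          rw [Nat.factorial_succ]
          push_cast
          ring
        rw [hf1]
        have h5 : σ ^ (n + 1) / ((n + 1) * (n.factorial : ℝ)) + q a * (σ ^ n / (n.factorial : ℝ))
            = (σ ^ (n + 1) + (n + 1) * q a * σ ^ n) / ((n + 1) * (n.factorial : ℝ)) := by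
          field_simp
        rw [h5]
        apply div_le_div_of_nonneg_right _ (by positivity)
        rw [add_comm (q a) σ]
        exact h4
      · intro S hS T hT hST
        have h1 : a ∉ S := fun h => ha ((mem_powersetCard.mp hS).1 h)
        have h2 : a ∉ T := fun h => ha ((mem_powersetCard.mp hT).1 h)
        rw [← erase_insert h1, ← erase_insert h2]
        exact congrArg (fun U => U.erase a) hST
      · rw [Finset.disjoint_left]
        intro S hS hS'
        rw [mem_image] at hS'
        obtain ⟨T, _, rfl⟩ := hS'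
        exact ha ((mem_powersetCard.mp hS).1 (mem_insert_self a T))

lemma exp_three_half : Real.exp (3 / 2) ≤ 5 := by
  have h1 : Real.exp (3 / 2) ^ 2 = Real.exp 1 ^ 3 := by
    rw [← Real.exp_nat_mul, ← Real.exp_nat_mul]
    norm_num
  have h2 := Real.exp_one_lt_d9
  have h3 : Real.exp 1 ^ 3 ≤ 25 := by
    calc Real.exp 1 ^ 3 ≤ (2.7182818286 : ℝ) ^ 3 :=
          pow_le_pow_left₀ (Real.exp_pos 1).le h2.le 3
      _ ≤ 25 := by norm_num
  have h4 : 0 < Real.exp (3 / 2) := Real.exp_pos _
  nlinarith

lemma esum_bound {J : Type u} (q : J → ℝ) (hq : ∀ j, 0 ≤ q j) (s : Finset J) (K : ℕ)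
    (hs : ∑ j ∈ s, q j ≤ K / 40) :
    (∑ S ∈ powersetCard (K + 1) s, ∏ j ∈ S, q j) * Real.exp ((K + 1 : ℕ) / 2)
      ≤ (1 / 8 : ℝ) ^ (K + 1) := by
  have h0 := esum_le q hq s (K + 1)
  set n : ℕ := K + 1 with hn
  have hn0 : (0 : ℝ) < n := by rw [hn]; positivity
  have hσ0 : 0 ≤ ∑ j ∈ s, q j := sum_nonneg (fun j _ => hq j)
  have h1 : ∑ j ∈ s, q j ≤ n / 40 := by
    refine hs.trans ?_
    rw [hn]
    push_cast
    linarith
  have h2 : (n : ℝ) ^ n / (n.factorial : ℝ) ≤ Real.exp n :=
    Real.pow_div_factorial_le_exp (n : ℝ) hn0.le n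
  have h3 : (∑ j ∈ s, q j) ^ n / (n.factorial : ℝ) ≤ (1 / 40) ^ n * Real.exp n := by
    calc (∑ j ∈ s, q j) ^ n / (n.factorial : ℝ) ≤ (n / 40 : ℝ) ^ n / (n.factorial : ℝ) := by
          apply div_le_div_of_nonneg_right _ (by positivity)
          exact pow_le_pow_left₀ hσ0 h1 n
      _ = (1 / 40) ^ n * ((n : ℝ) ^ n / (n.factorial : ℝ)) := by
          rw [div_pow, div_pow]
          ring
      _ ≤ (1 / 40) ^ n * Real.exp n := mul_le_mul_of_nonneg_left h2 (by positivity)
  calc (∑ S ∈ powersetCard n s, ∏ j ∈ S, q j) * Real.exp ((n : ℕ) / 2)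
      ≤ ((1 / 40) ^ n * Real.exp n) * Real.exp ((n : ℕ) / 2) :=
        mul_le_mul_of_nonneg_right (h0.trans h3) (Real.exp_pos _).le
    _ = (1 / 40) ^ n * Real.exp (3 / 2) ^ n := by
        rw [mul_assoc, ← Real.exp_add, ← Real.exp_nat_mul]
        congr 2
        ring
    _ = (Real.exp (3 / 2) / 40) ^ n := by
        rw [div_pow, div_pow, one_pow]
        ring
    _ ≤ (1 / 8) ^ n := by
        apply pow_le_pow_left₀ (by positivity)
        have := exp_three_half
        linarith

/-! ## products -/

lemma pr_prod {J : Type u} [Fintype J] {M : ℕ} (hM : 0 < M) (S : Finset J)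
    (B : J → Fin M → Prop) :
    pr (fun f : J → Fin M => ∀ j ∈ S, B j (f j))
      = ∏ j ∈ S, (((univ.filter (B j)).card : ℝ) / M) := by
  unfold pr
  have h1 : (@Finset.filter (J → Fin M) (fun f => ∀ j ∈ S, B j (f j))
      (fun _ => Classical.propDecidable _) univ)
      = Fintype.piFinset (fun j => if j ∈ S then univ.filter (B j) else univ) := by
    ext f
    simp only [mem_filter, mem_univ, true_and, Fintype.mem_piFinset]
    constructor
    · intro h j
      split_ifs with hj
      · simp [h j hj]
      · simp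
    · intro h j hj
      have := h j
      rw [if_pos hj] at this
      simpa using this
  rw [h1, Fintype.card_piFinset]
  have h2 : (Fintype.card (J → Fin M) : ℝ) = ∏ j : J, (M : ℝ) := by
    simp
  rw [h2]
  push_cast
  rw [← prod_div_distrib]
  have h3 : ∀ j : J, (((if j ∈ S then univ.filter (B j) else univ).card : ℝ) / (M : ℝ))
      = if j ∈ S then (((univ.filter (B j)).card : ℝ) / M) else 1 := by
    intro j
    split_ifs
    · rfl
    · rw [card_univ, Fintype.card_fin]
      have : (M : ℝ) ≠ 0 := by positivity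
      exact div_self this
  rw [prod_congr rfl (fun j _ => h3 j), prod_ite_mem, univ_inter]

/-- a map with prescribed fibre sizes -/
lemma exists_fib {X : Type u} [Fintype X] (M : ℕ) (m : X → ℕ) (h : ∑ x, m x = M) :
    ∃ φ : Fin M → X, ∀ x, (univ.filter (fun a => φ a = x)).card = m x := by
  have hc : Fintype.card (Fin M) = Fintype.card (Σ x, Fin (m x)) := by
    rw [Fintype.card_sigma, Fintype.card_fin]
    simp [h]
  let e : Fin M ≃ (Σ x, Fin (m x)) := Fintype.equivOfCardEq hc
  refine ⟨fun a => (e a).1, fun x => ?_⟩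
  rw [← Fintype.card_subtype]
  have e2 : {a : Fin M // (e a).1 = x} ≃ {s : (Σ x, Fin (m x)) // s.1 = x} :=
    e.subtypeEquiv (fun a => Iff.rfl)
  rw [Fintype.card_congr e2, Fintype.card_congr (Equiv.sigmaSubtype x), Fintype.card_fin]

/-- common denominator -/
lemma exists_den {J X : Type u} [Fintype J] [Fintype X] (p : J → X → ℚ) (h0 : ∀ j x, 0 ≤ p j x) :
    ∃ (M : ℕ) (m : J → X → ℕ), 0 < M ∧ ∀ j x, (m j x : ℚ) = p j x * M := by
  refine ⟨∏ j, ∏ x, (p j x).den, fun j x => (p j x * ((∏ j, ∏ x, (p j x).den : ℕ) : ℚ)).num.toNat,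
    ?_, ?_⟩
  · exact prod_pos (fun j _ => prod_pos (fun x _ => (p j x).den_pos))
  · intro j x
    obtain ⟨c, hc⟩ : (p j x).den ∣ ∏ j, ∏ x, (p j x).den :=
      (dvd_prod_of_mem (fun x => (p j x).den) (mem_univ x)).trans
        (dvd_prod_of_mem (fun j => ∏ x, (p j x).den) (mem_univ j))
    have h1 : p j x * ((∏ j, ∏ x, (p j x).den : ℕ) : ℚ) = (((p j x).num * c : ℤ) : ℚ) := by
      rw [hc]
      push_cast
      rw [← mul_assoc, Rat.mul_den_eq_num]
    have h2 : 0 ≤ (p j x).num * (c : ℤ) :=
      mul_nonneg (Rat.num_nonneg.mpr (h0 j x)) (by positivity)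
    show (((p j x * ((∏ j, ∏ x, (p j x).den : ℕ) : ℚ)).num.toNat : ℕ) : ℚ) = _
    rw [h1, Rat.num_intCast]
    have h3 : ((((p j x).num * (c : ℤ)).toNat : ℤ) : ℚ) = (((p j x).num * c : ℤ) : ℚ) := by
      rw [Int.toNat_of_nonneg h2]
    exact_mod_cast h3

theorem stmt_SELQ : Stmt_SELQ.{u} := by
  intro J X I _ _ _ p Cn tc K N h0 h1 hsym hcon hcap hN hNK hK
  obtain ⟨M, m, hM, hm⟩ := exists_den p h0
  have hMR : (0 : ℝ) < M := by exact_mod_cast hM
  have hms : ∀ j, ∑ x, m j x = M := by
    intro j
    have h2 : ((∑ x, m j x : ℕ) : ℚ) = (M : ℚ) := by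
      push_cast
      rw [sum_congr rfl (fun x _ => hm j x), ← sum_mul, h1, one_mul]
    exact_mod_cast h2
  choose φ hφ using fun j => exists_fib M (m j) (hms j)
  let pp : J → X → ℝ := fun j x => (p j x : ℝ)
  have hpp0 : ∀ j x, 0 ≤ pp j x := fun j x => by
    show (0 : ℝ) ≤ (p j x : ℝ)
    exact_mod_cast h0 j x
  have hpp1 : ∀ j, ∑ x, pp j x = 1 := fun j => by
    have := h1 j
    show ∑ x, (p j x : ℝ) = 1
    exact_mod_cast this
  have hfib : ∀ j x, (((univ.filter (fun a => φ j a = x)).card : ℝ) / M) = pp j x := by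
    intro j x
    rw [hφ j x, div_eq_iff hMR.ne']
    show (m j x : ℝ) = (p j x : ℝ) * M
    exact_mod_cast hm j x
  have hpos : ∀ j a, p j (φ j a) ≠ 0 := by
    intro j a h
    have h2 := hm j (φ j a)
    rw [h, zero_mul] at h2
    have h3 : m j (φ j a) = 0 := by exact_mod_cast h2
    have h4 := hφ j (φ j a)
    rw [h3, card_eq_zero] at h4
    have h5 : a ∈ (univ.filter (fun b => φ j b = φ j a)) := by simp
    rw [h4] at h5
    simp at h5
  let qt : I → J → ℝ := fun i j => ∑ x ∈ univ.filter (fun x => tc j x i), pp j x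
  have hqt0 : ∀ i j, 0 ≤ qt i j := fun i j => sum_nonneg (fun x _ => hpp0 j x)
  have hqt : ∀ i j, (((univ.filter (fun a => tc j (φ j a) i)).card : ℝ) / M) = qt i j := by
    intro i j
    have h2 : (univ.filter (fun a => tc j (φ j a) i)).card
        = ∑ x ∈ univ.filter (fun x => tc j x i), (univ.filter (fun a => φ j a = x)).card := by
      rw [card_eq_sum_card_fiberwise (f := φ j) (t := univ.filter (fun x => tc j x i))]
      · refine sum_congr rfl (fun x hx => ?_)
        rw [mem_filter] at hx
        congr 1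
        ext a
        simp only [mem_filter, mem_univ, true_and]
        constructor
        · exact fun h => h.2
        · rintro rfl
          exact ⟨hx.2, rfl⟩
      · intro a ha
        simpa using ha
    rw [h2]
    push_cast
    rw [sum_div]
    exact sum_congr rfl (fun x _ => hfib j x)
  let ScI : I → Finset J := fun i => univ.filter (fun j => ∃ x, p j x ≠ 0 ∧ tc j x i)
  let Sc : (J × J) ⊕ I → Finset J := Sum.elim (fun r => {r.1, r.2}) ScI
  let W1 : J → J → ℝ := fun j j' => if j = j' then 0 else
    ∑ x, ∑ x' ∈ univ.filter (fun x' => Cn j x j' x'), pp j x * pp j' x'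
  let W : (J × J) ⊕ I → ℝ := Sum.elim (fun r => Real.exp 1 * W1 r.1 r.2)
    (fun _ => (1 / 8 : ℝ) ^ (K + 1))
  let P : (J × J) ⊕ I → (J → Fin M) → Prop := Sum.elim
    (fun r f => r.1 ≠ r.2 → ¬ Cn r.1 (φ r.1 (f r.1)) r.2 (φ r.2 (f r.2)))
    (fun i f => (univ.filter (fun j => tc j (φ j (f j)) i)).card ≤ K)
  have hpack : ∀ r, PackI (1 / 4 : ℝ) (Sc r) (W r) (P r) := by
    rintro (⟨j, j'⟩ | i)
    · refine ⟨X × X, inferInstance, fun _ => {j, j'}, fun z f => j ≠ j' ∧ Cn j z.1 j' z.2 ∧
        φ j (f j) = z.1 ∧ φ j' (f j') = z.2, ?_, ?_, ?_, ?_, ?_⟩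
      · intro z f f' hff
        have e1 := hff j (by simp)
        have e2 := hff j' (by simp)
        simp only [e1, e2]
      · intro z
        exact ⟨j, by simp⟩
      · intro z
        exact Finset.Subset.refl _
      · show ∑ z : X × X, pr (fun f : J → Fin M => j ≠ j' ∧ Cn j z.1 j' z.2 ∧
          φ j (f j) = z.1 ∧ φ j' (f j') = z.2) * Real.exp (2 * (1 / 4) * (({j, j'} : Finset J).card : ℝ))
            ≤ Real.exp 1 * W1 j j'
        by_cases hjj : j = j'
        · subst hjj
          have e0 : W1 j j = 0 := if_pos rfl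
          rw [e0, mul_zero]
          apply le_of_eq
          apply sum_eq_zero
          intro z _
          have : pr (fun f : J → Fin M => j ≠ j ∧ Cn j z.1 j z.2 ∧
            φ j (f j) = z.1 ∧ φ j (f j) = z.2) = 0 := by
            unfold pr
            simp
          rw [this, zero_mul]
        · have hcard : ({j, j'} : Finset J).card = 2 := card_pair hjj
          have hexp : Real.exp (2 * (1 / 4) * (({j, j'} : Finset J).card : ℝ)) = Real.exp 1 := by
            rw [hcard]
            norm_num
          have hpr : ∀ z : X × X, pr (fun f : J → Fin M => j ≠ j' ∧ Cn j z.1 j' z.2 ∧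
              φ j (f j) = z.1 ∧ φ j' (f j') = z.2)
              = if Cn j z.1 j' z.2 then pp j z.1 * pp j' z.2 else 0 := by
            intro z
            split_ifs with hc
            · have e1 : (fun f : J → Fin M => j ≠ j' ∧ Cn j z.1 j' z.2 ∧
                  φ j (f j) = z.1 ∧ φ j' (f j') = z.2)
                  = (fun f : J → Fin M => ∀ y ∈ ({j, j'} : Finset J),
                    (fun (y : J) (a : Fin M) => φ y a = if y = j then z.1 else z.2) y (f y)) := by
                funext f
                apply propext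
                simp only [mem_insert, mem_singleton, forall_eq_or_imp, forall_eq, if_true]
                rw [if_neg (Ne.symm hjj)]
                exact ⟨fun h => h.2.2, fun h => ⟨hjj, hc, h⟩⟩
              rw [e1, pr_prod hM {j, j'}
                (fun (y : J) (a : Fin M) => φ y a = if y = j then z.1 else z.2), prod_pair hjj]
              simp only [if_true]
              rw [if_neg (Ne.symm hjj)]
              rw [hfib, hfib]
            · unfold pr
              simp [hc]
          rw [← sum_mul, hexp, mul_comm]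
          apply mul_le_mul_of_nonneg_left _ (Real.exp_pos _).le
          rw [sum_congr rfl (fun z _ => hpr z), Fintype.sum_prod_type]
          have e2 : W1 j j' = ∑ x, ∑ x' ∈ univ.filter (fun x' => Cn j x j' x'),
            pp j x * pp j' x' := if_neg hjj
          rw [e2]
          apply le_of_eq
          refine sum_congr rfl (fun x _ => ?_)
          rw [sum_filter]
      · intro f hf hne hc
        exact hf (φ j (f j), φ j' (f j')) ⟨hne, hc, rfl, rfl⟩
    · refine ⟨{S : Finset J // S ∈ powersetCard (K + 1) (ScI i)},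
        Finset.Subtype.fintype (powersetCard (K + 1) (ScI i)), fun S => S.1,
        fun S f => ∀ j ∈ S.1, tc j (φ j (f j)) i, ?_, ?_, ?_, ?_, ?_⟩
      · rintro ⟨S, hS⟩ f f' hff
        apply propext
        constructor
        · intro h j hj
          rw [← hff j hj]
          exact h j hj
        · intro h j hj
          rw [hff j hj]
          exact h j hj
      · rintro ⟨S, hS⟩
        have := (mem_powersetCard.mp hS).2
        show S.Nonempty
        exact card_pos.mp (by omega)
      · rintro ⟨S, hS⟩
        exact (mem_powersetCard.mp hS).1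
      · show ∑ S : {S : Finset J // S ∈ powersetCard (K + 1) (ScI i)},
          pr (fun f : J → Fin M => ∀ j ∈ S.1, tc j (φ j (f j)) i) *
            Real.exp (2 * (1 / 4) * ((S.1.card : ℕ) : ℝ)) ≤ (1 / 8 : ℝ) ^ (K + 1)
        have e1 : ∀ S : {S : Finset J // S ∈ powersetCard (K + 1) (ScI i)},
            pr (fun f : J → Fin M => ∀ j ∈ S.1, tc j (φ j (f j)) i) *
            Real.exp (2 * (1 / 4) * ((S.1.card : ℕ) : ℝ))
            = (∏ j ∈ S.1, qt i j) * Real.exp ((K + 1 : ℕ) / 2) := by
          rintro ⟨S, hS⟩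
          have hc := (mem_powersetCard.mp hS).2
          rw [pr_prod hM S (fun j a => tc j (φ j a) i)]
          simp only [hc]
          congr 1
          · exact prod_congr rfl (fun j _ => hqt i j)
          · congr 1
            ring
        rw [sum_congr rfl (fun S _ => e1 S)]
        rw [← sum_mul, Finset.sum_coe_sort (powersetCard (K + 1) (ScI i)) (fun S => ∏ j ∈ S, qt i j)]
        apply esum_bound (qt i) (hqt0 i)
        have e2 : ∑ j ∈ ScI i, qt i j ≤ ∑ j, qt i j :=
          sum_le_sum_of_subset_of_nonneg (subset_univ _) (fun j _ _ => hqt0 i j)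
        refine e2.trans ?_
        have e3 := hcap i
        have e4 : ((∑ j, ∑ x ∈ univ.filter (fun x => tc j x i), p j x : ℚ) : ℝ)
            ≤ (((K : ℚ) / 40 : ℚ) : ℝ) := by
          exact_mod_cast e3
        push_cast at e4
        exact e4
      · intro f hf
        by_contra hcon'
        have hcon2 : K + 1 ≤ (univ.filter (fun j => tc j (φ j (f j)) i)).card := by
          have : ¬ (univ.filter (fun j => tc j (φ j (f j)) i)).card ≤ K := hcon'
          omega
        obtain ⟨S, hS1, hS2⟩ := exists_subset_card_eq hcon2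
        have hS3 : S ∈ powersetCard (K + 1) (ScI i) := by
          rw [mem_powersetCard]
          refine ⟨fun j hj => ?_, hS2⟩
          have := hS1 hj
          rw [mem_filter] at this
          show j ∈ univ.filter (fun j => ∃ x, p j x ≠ 0 ∧ tc j x i)
          rw [mem_filter]
          exact ⟨mem_univ _, φ j (f j), hpos j (f j), this.2⟩
        refine hf ⟨S, hS3⟩ (fun j hj => ?_)
        have := hS1 hj
        rw [mem_filter] at this
        exact this.2
  have hW1s : ∀ j j', W1 j j' = W1 j' j := by
    intro j j'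
    show (if j = j' then (0 : ℝ) else ∑ x, ∑ x' ∈ univ.filter (fun x' => Cn j x j' x'),
      pp j x * pp j' x') = if j' = j then (0 : ℝ) else
      ∑ x, ∑ x' ∈ univ.filter (fun x' => Cn j' x j x'), pp j' x * pp j x'
    by_cases h : j = j'
    · rw [if_pos h, if_pos h.symm]
    · rw [if_neg h, if_neg (Ne.symm h)]
      simp only [sum_filter]
      rw [sum_comm]
      refine sum_congr rfl (fun x _ => sum_congr rfl (fun x' _ => ?_))
      have e1 : Cn j x' j' x ↔ Cn j' x j x' := ⟨hsym _ _ _ _, hsym _ _ _ _⟩
      simp only [e1, mul_comm]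
  have hW10 : ∀ j j', 0 ≤ W1 j j' := by
    intro j j'
    show (0 : ℝ) ≤ if j = j' then (0 : ℝ) else ∑ x, ∑ x' ∈ univ.filter (fun x' => Cn j x j' x'),
      pp j x * pp j' x'
    split_ifs
    · exact le_rfl
    · exact sum_nonneg (fun x _ => sum_nonneg (fun x' _ => mul_nonneg (hpp0 _ _) (hpp0 _ _)))
  have hrow : ∀ y, ∑ j', W1 y j' ≤ 1 / 40 := by
    intro y
    have e1 : ∑ j', W1 y j' = ∑ x, pp y x * ∑ j' ∈ univ.filter (fun j' => j' ≠ y),
        ∑ x' ∈ univ.filter (fun x' => Cn y x j' x'), pp j' x' := by
      simp only [mul_sum]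
      rw [sum_comm, sum_filter]
      refine sum_congr rfl (fun j' _ => ?_)
      show (if y = j' then (0 : ℝ) else ∑ x, ∑ x' ∈ univ.filter (fun x' => Cn y x j' x'),
        pp y x * pp j' x') = _
      by_cases h : y = j'
      · rw [if_pos h, if_neg (by simpa using h.symm)]
      · rw [if_neg h, if_pos (Ne.symm h)]
    rw [e1]
    have e2 : ∀ x ∈ (univ : Finset X), pp y x * ∑ j' ∈ univ.filter (fun j' => j' ≠ y),
        ∑ x' ∈ univ.filter (fun x' => Cn y x j' x'), pp j' x' ≤ pp y x * (1 / 40) := by
      intro x _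
      by_cases hx : p y x = 0
      · have : pp y x = 0 := by
          show (p y x : ℝ) = 0
          rw [hx]
          norm_num
        rw [this, zero_mul, zero_mul]
      · apply mul_le_mul_of_nonneg_left _ (hpp0 y x)
        have e3 := hcon y x hx
        have e4 : ((∑ j' ∈ univ.filter (fun j' => j' ≠ y),
          ∑ x' ∈ univ.filter (fun x' => Cn y x j' x'), p j' x' : ℚ) : ℝ) ≤ ((1 / 40 : ℚ) : ℝ) := by
          exact_mod_cast e3
        push_cast at e4
        exact e4
    refine (sum_le_sum e2).trans ?_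
    rw [← sum_mul, hpp1, one_mul]
  have hsum : ∀ y, ∑ r ∈ univ.filter (fun r => y ∈ Sc r), W r ≤ 1 / 4 := by
    intro y
    rw [sum_filter, Fintype.sum_sum_type]
    have e1 : ∑ r : J × J, (if y ∈ Sc (Sum.inl r) then W (Sum.inl r) else 0)
        ≤ Real.exp 1 * (1 / 40) + Real.exp 1 * (1 / 40) := by
      have e2 : ∀ r ∈ (univ : Finset (J × J)), (if y ∈ Sc (Sum.inl r) then W (Sum.inl r) else 0)
          ≤ (if r.1 = y then Real.exp 1 * W1 r.1 r.2 else 0)
            + (if r.2 = y then Real.exp 1 * W1 r.1 r.2 else 0) := by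
        rintro ⟨j, j'⟩ _
        have e3 : 0 ≤ Real.exp 1 * W1 j j' := mul_nonneg (Real.exp_pos _).le (hW10 j j')
        have e4 : y ∈ Sc (Sum.inl (j, j')) ↔ (y = j ∨ y = j') := by
          show y ∈ ({j, j'} : Finset J) ↔ _
          simp
        show (if y ∈ Sc (Sum.inl (j, j')) then Real.exp 1 * W1 j j' else 0) ≤
          (if j = y then Real.exp 1 * W1 j j' else 0) + (if j' = y then Real.exp 1 * W1 j j' else 0)
        by_cases h1 : j = y
        · rw [if_pos h1, if_pos (e4.mpr (Or.inl h1.symm))]
          split_ifs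
          · linarith
          · linarith
        · by_cases h2 : j' = y
          · rw [if_neg h1, if_pos h2, if_pos (e4.mpr (Or.inr h2.symm))]
            linarith
          · rw [if_neg h1, if_neg h2, if_neg]
            · linarith
            · rw [e4]
              rintro (h | h)
              · exact h1 h.symm
              · exact h2 h.symm
      refine (sum_le_sum e2).trans ?_
      rw [sum_add_distrib]
      apply add_le_add
      · rw [Fintype.sum_prod_type]
        have e5 : ∀ j ∈ (univ : Finset J), ∑ j', (if j = y then Real.exp 1 * W1 j j' else 0)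
            = if j = y then Real.exp 1 * ∑ j', W1 y j' else 0 := by
          intro j _
          by_cases h : j = y
          · subst h
            simp [mul_sum]
          · simp [h]
        rw [sum_congr rfl e5]
        simp only [sum_ite_eq', mem_univ, if_true]
        exact mul_le_mul_of_nonneg_left (hrow y) (Real.exp_pos _).le
      · rw [Fintype.sum_prod_type_right]
        have e5 : ∀ j' ∈ (univ : Finset J), ∑ j, (if j' = y then Real.exp 1 * W1 j j' else 0)
            = if j' = y then Real.exp 1 * ∑ j, W1 y j else 0 := by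
          intro j' _
          by_cases h : j' = y
          · subst h
            simp [mul_sum, hW1s j']
          · simp [h]
        rw [sum_congr rfl e5]
        simp only [sum_ite_eq', mem_univ, if_true]
        exact mul_le_mul_of_nonneg_left (hrow y) (Real.exp_pos _).le
    have e2 : ∑ i : I, (if y ∈ Sc (Sum.inr i) then W (Sum.inr i) else 0) ≤ 1 / 320 := by
      have e3 : ∑ i : I, (if y ∈ Sc (Sum.inr i) then W (Sum.inr i) else 0)
          = ((univ.filter (fun i => ∃ x, p y x ≠ 0 ∧ tc y x i)).card : ℝ) * (1 / 8) ^ (K + 1) := by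
        rw [← nsmul_eq_mul, ← sum_const, sum_filter]
        refine sum_congr rfl (fun i _ => ?_)
        have e4 : y ∈ Sc (Sum.inr i) ↔ ∃ x, p y x ≠ 0 ∧ tc y x i := by
          show y ∈ univ.filter (fun j => ∃ x, p j x ≠ 0 ∧ tc j x i) ↔ _
          simp
        simp only [e4]
        rfl
      rw [e3]
      have e5 : ((univ.filter (fun i => ∃ x, p y x ≠ 0 ∧ tc y x i)).card : ℝ) ≤ N := by
        exact_mod_cast hN y
      have e6 : 40 * (N : ℝ) ≤ 2 ^ K := by exact_mod_cast hNK
      calc ((univ.filter (fun i => ∃ x, p y x ≠ 0 ∧ tc y x i)).card : ℝ) * (1 / 8) ^ (K + 1)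
          ≤ (2 ^ K / 40) * (1 / 8) ^ (K + 1) :=
            mul_le_mul_of_nonneg_right (by linarith) (by positivity)
        _ = (1 / 320) * (1 / 4) ^ K := by
            rw [pow_succ]
            have : (1 / 8 : ℝ) ^ K * 2 ^ K = (1 / 4) ^ K := by
              rw [← mul_pow]
              norm_num
            linear_combination (1 / 320) * this
        _ ≤ (1 / 320) * 1 := by
            apply mul_le_mul_of_nonneg_left _ (by norm_num)
            exact pow_le_one₀ (by norm_num) (by norm_num)
        _ = 1 / 320 := by ring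
    have e7 := Real.exp_one_lt_d9
    linarith
  obtain ⟨f, hf⟩ := stmt_LLLI J M ((J × J) ⊕ I) (1 / 4) Sc W P hM (by norm_num) (le_refl _)
    hpack hsum
  refine ⟨fun j => φ j (f j), fun j => hpos j (f j), fun j j' hne => ?_, fun i => ?_⟩
  · exact hf (Sum.inl (j, j')) hne
  · exact hf (Sum.inr i)

end Pool.Agent.Work.MP_db9399_sv.helper15
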